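import Mathlib
import Pool.Agent.H28.Phase

set_option autoImplicit false

open MeasureTheory

namespace Pool.Agent.Results.MP_f1e3b4_an.NotAlmostSure

/-- The matrix `A` is injective for complex phase retrieval: `|Ax| = |Ay|` entrywise implies
`y = c x` with `|c| = 1`. -/
def PhaseInjective {N M : ℕ} (A : Fin N → Fin M → ℂ) : Prop :=
  ∀ x y : Fin M → ℂ, (∀ i : Fin N, ‖∑ j, A i j * x j‖ = ‖∑ j, A i j * y j‖) →
    ∃ c : ℂ, ‖c‖ = 1 ∧ y = c • x

/-- For every `M ≥ 2` the matrices in `ℂ^{(4M-5) × M}` which are not injective for complex phase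
retrieval form a set of positive Lebesgue measure; hence, for every measure `μ` with respect to
which Lebesgue measure is absolutely continuous (such as the standard complex Gaussian measure),
they have positive `μ`-measure. -/
theorem result : ∀ M : ℕ, 2 ≤ M →
    0 < volume {A : Fin (4 * M - 5) → Fin M → ℂ | ¬ PhaseInjective A} ∧
    ∀ μ : Measure (Fin (4 * M - 5) → Fin M → ℂ), volume ≪ μ →
      0 < μ {A : Fin (4 * M - 5) → Fin M → ℂ | ¬ PhaseInjective A} := by
  intro M hM
  have h := Pool.Agent.H28.Phase.main M hM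
  have hset : {A : Fin (4 * M - 5) → Fin M → ℂ |
        ∃ x y : Fin M → ℂ,
          (∀ i : Fin (4 * M - 5), ‖∑ j, A i j * x j‖ = ‖∑ j, A i j * y j‖) ∧
          ∀ c : ℂ, ‖c‖ = 1 → y ≠ c • x} ⊆
      {A : Fin (4 * M - 5) → Fin M → ℂ | ¬ PhaseInjective A} := by
    rintro A ⟨x, y, h1, h2⟩ hA
    obtain ⟨c, hc, hy⟩ := hA x y h1
    exact h2 c hc hy
  have h' := lt_of_lt_of_le h (measure_mono hset)
  refine ⟨h', fun μ hμ => ?_⟩
  rw [pos_iff_ne_zero]
  intro h0
  exact h'.ne' (hμ h0)

end Pool.Agent.Results.MP_f1e3b4_an.NotAlmostSure
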